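import Mathlib
import Pool.Agent.MP5d0678.Main

/-!
# The MRD criterion for the codes `C_{δ,s}` for all odd `q` (MP_5d0678_co)

The proof is in `Pool.Agent.MP5d0678`.  Write `σ x = x ^ (q ^ s)`, a generator of the Galois group
of `F_{q^8} / F_q`.  If `δ ^ (1 + q ^ 4) = D ≠ -1`, a codeword with a kernel of dimension two comes
from an element `t ∉ F_q` whose conjugates satisfy the cross-ratio equation
`(t - σ t) (σ⁴ t - σ⁵ t) = D (t - σ⁵ t) (σ⁴ t - σ t)`.  The configurations of such `t` modulo
`PGL₂(q)` form a curve of genus one; a rational point on it is found with the polynomial method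
applied to the discriminant of a pencil of quadrics, followed by a character sum over a
two-parameter family of quaternary quadratic forms.
-/

set_option autoImplicit false

namespace Pool.Agent.Results.MP_5d0678_co.MRDCriterion

/-- The code `C_{δ,s} = {a x + b (x ^ (q ^ s) + δ x ^ (q ^ (4 + s))) : a, b ∈ K}`, where
`q` is the number of elements of `F`, as an `F`-subspace of the `F`-linear maps `K → K`. -/
def code (F : Type*) {K : Type*} [Field F] [Fintype F] [Field K] [Algebra F K]
    (δ : K) (s : ℕ) : Submodule F (K →ₗ[F] K) where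
  carrier := {φ | ∃ a b : K, ∀ x : K, φ x = a * x + b *
    (x ^ (Fintype.card F ^ s) + δ * x ^ (Fintype.card F ^ (4 + s)))}
  add_mem' := by
    rintro φ ψ ⟨a, b, h⟩ ⟨a', b', h'⟩
    exact ⟨a + a', b + b', fun x => by rw [LinearMap.add_apply, h, h']; ring⟩
  zero_mem' := ⟨0, 0, fun x => by simp⟩
  smul_mem' := by
    rintro t φ ⟨a, b, h⟩
    exact ⟨t • a, t • b, fun x => by
      rw [LinearMap.smul_apply, h]; simp only [Algebra.smul_def]; ring⟩

/-- A linear code `C` of `F`-linear maps `K → K`, where `[K : F] = 8`, is MRD: the minimum rank `d`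
of its nonzero elements satisfies `dim C = 8 (8 - d + 1)`. -/
def IsMRD {F K : Type*} [Field F] [Field K] [Algebra F K] (C : Submodule F (K →ₗ[F] K)) : Prop :=
  ∃ d : ℕ, IsLeast {r : ℕ | ∃ φ ∈ C, φ ≠ 0 ∧ r = Module.finrank F (LinearMap.range φ)} d ∧
    Module.finrank F C = 8 * (8 - d + 1)

/-- For every finite field `F` with an odd number `q` of elements, every extension `K` of degree
`8`, every nonzero `δ` in `K` and every `s ∈ {1, 3, 5, 7}`, the code `C_{δ,s}` is MRD if and only
if `δ ^ (1 + q ^ 4) = -1`. -/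
theorem result {F K : Type*} [Field F] [Fintype F] [Field K] [Fintype K] [Algebra F K]
    (hq : Odd (Fintype.card F)) (hK : Module.finrank F K = 8) (δ : K) (hδ : δ ≠ 0)
    (s : ℕ) (hs : s = 1 ∨ s = 3 ∨ s = 5 ∨ s = 7) :
    IsMRD (code F δ s) ↔ δ ^ (1 + Fintype.card F ^ 4) = -1 := by
  classical
  exact MP5d0678.main_thm hq hK δ hδ s hs (code F δ s) (fun φ => Iff.rfl)

end Pool.Agent.Results.MP_5d0678_co.MRDCriterion
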